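import Pool.Agent.Work.MP_54ee58_lc.Eff
import Pool.Agent.Lib.Cx.Bridge
import Pool.Agent.Lib.Cx.CookLevin

namespace Pool.Agent.Work.MP_54ee58_lc.Parked.CoNPHard

open Pool.Agent.Work.MP_54ee58_lc Pool.Agent.Lib.Cx

/-- Deciding `core(G) = nucleus(G)` is coNP-hard under polynomial-time many-one reductions. -/
theorem result : ∀ L ∈ N68a2faeb.coNP, N793a5b8e.ManyOneReducible L CoreEqNucleus := by
  intro L hL
  obtain ⟨φ, hφ, h3, h⟩ := cook_levin_ls Lᶜ hL
  refine ⟨fun x => matBits (5 * (φ x).length + 7) (f2 (φ x)),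
    (LS.comp _ _ ls_gadget2 hφ).isPolyTime, fun x => ?_⟩
  rw [Bool.eq_iff_iff, gadget2 _ (h3 x), Sat, ← h x]
  cases hx : L x <;> simp [hx]

end Pool.Agent.Work.MP_54ee58_lc.Parked.CoNPHard
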