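import Pool.Agent.Work.MP_54ee58_lc.Eff
import Pool.Agent.Lib.Cx.Bridge
import Pool.Agent.Lib.Cx.CookLevin

namespace Pool.Agent.Work.MP_54ee58_lc.Parked.NPHard

open Pool.Agent.Work.MP_54ee58_lc Pool.Agent.Lib.Cx

/-- Deciding `core(G) = nucleus(G)` is NP-hard under polynomial-time many-one reductions. -/
theorem result : ∀ L ∈ N68a2faeb.NP, N793a5b8e.ManyOneReducible L CoreEqNucleus := by
  intro L hL
  obtain ⟨φ, hφ, h3, h⟩ := cook_levin_ls L hL
  refine ⟨fun x => matBits (4 * (φ x).length) (f1 (φ x)),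
    (LS.comp _ _ ls_gadget1 hφ).isPolyTime, fun x => ?_⟩
  rw [Bool.eq_iff_iff, gadget1 _ (h3 x)]
  exact h x

end Pool.Agent.Work.MP_54ee58_lc.Parked.NPHard
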